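import Pool.Agent.Q244.DM6

/-! MP_c0a4b6: principal minors of a skew-Hermitian matrix plus a Hermitian matrix of rank one. -/

set_option autoImplicit false

open Matrix
open scoped NNReal

namespace Pool.Agent.Results.MP_c0a4b6_co.SkewPlusHermitian

open Pool.Agent.Q244.DM

/-- Let `K` be any field with a valuation `ν : K → ℝ ∪ {∞}` and an involutive automorphism `σ`
(possibly the identity) preserving `ν`. If `B` is skew-Hermitian and `C` is Hermitian of rank one,
then the valuations of the principal minors of `B + C` form a valuated Delta-matroid. -/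
theorem result (K : Type) [Field K] (ν : AddValuation K (WithTop ℝ))
    (σ : K ≃+* K) (hσ : ∀ a, σ (σ a) = a) (hν : ∀ a, ν (σ a) = ν a) (n : ℕ)
    (B C : Matrix (Fin n) (Fin n) K) (hB : ∀ i j, B j i = -σ (B i j))
    (hC : ∀ i j, C j i = σ (C i j)) (hrank : C.rank = 1) :
    IsValuatedDeltaMatroid (fun S : Finset (Fin n) =>
      ν (((B + C).submatrix (Subtype.val : {i // i ∈ S} → Fin n)
        (Subtype.val : {i // i ∈ S} → Fin n)).det)) := by
  letI : StarRing K :=
    { star := σ
      star_involutive := hσ
      star_mul := fun x y => by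
        show σ (x * y) = σ y * σ x
        rw [map_mul, mul_comm]
      star_add := fun x y => map_add σ x y }
  have hstar : ∀ a : K, star a = σ a := fun _ => rfl
  have hB' : Bᴴ = -B := by
    ext i j
    rw [conjTranspose_apply, Matrix.neg_apply, hstar, hB j i, neg_neg]
  have hC' : Cᴴ = C := by
    ext i j
    rw [conjTranspose_apply, hstar, hC j i]
  exact isVDM_of_gv ν (B + C) (fun c hc S T hST h =>
    exchange_herm (mulV ν) (fun a => by rw [mulV_apply, mulV_apply, hstar, hν]) B C hB' hC'
      hrank.le c hc S T hST h)

end Pool.Agent.Results.MP_c0a4b6_co.SkewPlusHermitian
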